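import Mathlib

set_option autoImplicit false

namespace Pool.Agent.Helper8.XV

open Filter

theorem asymp {d₀ : ℝ} (h0 : 0 < d₀) : ∃ G : ℕ, 10 ^ 10 ≤ G ∧ ∀ m : ℕ, G ≤ m → ∀ β : ℝ, 1 ≤ β →
    β ≤ (m : ℝ) ^ (4 / 5 : ℝ) → 24 * (m : ℝ) ^ (2 * β) ≤ Real.exp (d₀ * m / 2) := by
  have h1 : ∀ᶠ x : ℝ in atTop, ‖Real.log x‖ ≤ d₀ / 8 * ‖x ^ (1 / 5 : ℝ)‖ :=
    (isLittleO_log_rpow_atTop (by norm_num : (0 : ℝ) < 1 / 5)).bound (by positivity)
  have h2 := tendsto_natCast_atTop_atTop (R := ℝ) |>.eventually h1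
  obtain ⟨G₁, hG₁⟩ := Filter.eventually_atTop.1 h2
  obtain ⟨G₂, hG₂⟩ := exists_nat_gt (16 / d₀)
  refine ⟨max (10 ^ 10) (max G₁ G₂), le_max_left _ _, fun m hm β hβ1 hβ => ?_⟩
  have hm1 : 10 ^ 10 ≤ m := le_trans (le_max_left _ _) hm
  have hmG : G₁ ≤ m := le_trans (le_trans (le_max_left _ _) (le_max_right _ _)) hm
  have hmG2 : (G₂ : ℝ) ≤ m := by
    exact_mod_cast le_trans (le_trans (le_max_right _ _) (le_max_right _ _)) hm
  have hmR : (1 : ℝ) ≤ m := by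
    have : 1 ≤ m := le_trans (by norm_num) hm1
    exact_mod_cast this
  have hm0 : (0 : ℝ) < m := by linarith
  have hlog : 0 ≤ Real.log m := Real.log_nonneg hmR
  have h3 : Real.log m ≤ d₀ / 8 * (m : ℝ) ^ (1 / 5 : ℝ) := by
    have h := hG₁ m hmG
    rw [Real.norm_eq_abs, Real.norm_eq_abs, abs_of_nonneg hlog,
      abs_of_nonneg (Real.rpow_nonneg hm0.le _)] at h
    exact h
  have h4 : 2 * β * Real.log m ≤ d₀ / 4 * m := by
    calc 2 * β * Real.log m ≤ 2 * (m : ℝ) ^ (4 / 5 : ℝ) * (d₀ / 8 * (m : ℝ) ^ (1 / 5 : ℝ)) := by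
          gcongr
      _ = d₀ / 4 * ((m : ℝ) ^ (4 / 5 : ℝ) * (m : ℝ) ^ (1 / 5 : ℝ)) := by ring
      _ = d₀ / 4 * m := by
          rw [← Real.rpow_add hm0]
          norm_num
  have h5 : (4 : ℝ) ≤ d₀ / 4 * m := by
    have : 16 / d₀ < m := hG₂.trans_le hmG2
    rw [div_lt_iff₀ h0] at this
    linarith
  have h24 : (24 : ℝ) ≤ Real.exp 4 := by
    have := Real.add_one_le_exp (1 : ℝ)
    have h6 : (5 / 2 : ℝ) ≤ Real.exp 1 := by
      have := Real.exp_one_gt_d9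
      linarith
    have h7 : Real.exp 4 = Real.exp 1 ^ 4 := by
      rw [← Real.exp_nat_mul]
      norm_num
    rw [h7]
    calc (24 : ℝ) ≤ (5 / 2) ^ 4 := by norm_num
      _ ≤ Real.exp 1 ^ 4 := by gcongr
  calc 24 * (m : ℝ) ^ (2 * β) ≤ Real.exp 4 * Real.exp (Real.log m * (2 * β)) := by
        rw [Real.rpow_def_of_pos hm0]
        gcongr
    _ = Real.exp (4 + Real.log m * (2 * β)) := (Real.exp_add _ _).symm
    _ ≤ Real.exp (d₀ * m / 2) := by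
        refine Real.exp_le_exp.2 ?_
        linarith [h4, h5, mul_comm (Real.log m) (2 * β)]

end Pool.Agent.Helper8.XV
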